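import Pool.Agent.H566R4.Stmts2

set_option autoImplicit false

namespace Pool.Agent.Helper923.BG

open Polynomial Module Pool.Agent.H566R4

variable {k : Type} [Field k]

/-- dehomogenisation -/
noncomputable def ph (k : Type) [Field k] : MvPolynomial (Fin 3) k →ₐ[k] MvPolynomial (Fin 2) k :=
  MvPolynomial.aeval ![MvPolynomial.X 0, MvPolynomial.X 1, 1]

noncomputable def pr (m : Fin 3 →₀ ℕ) : Fin 2 →₀ ℕ := Finsupp.single 0 (m 0) + Finsupp.single 1 (m 1)

theorem ph_mon (m : Fin 3 →₀ ℕ) (c : k) :
    ph k (MvPolynomial.monomial m c) = MvPolynomial.monomial (pr m) c := by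
  unfold ph pr
  rw [MvPolynomial.aeval_monomial, Finsupp.prod_fintype _ _ (by simp), Fin.prod_univ_three]
  simp only [Matrix.cons_val_zero, Matrix.cons_val_one, Matrix.cons_val, one_pow, mul_one]
  rw [MvPolynomial.X_pow_eq_monomial, MvPolynomial.X_pow_eq_monomial,
    MvPolynomial.monomial_mul, MvPolynomial.algebraMap_eq, MvPolynomial.C_mul_monomial]
  simp

theorem ph_sum (H : MvPolynomial (Fin 3) k) :
    ph k H = ∑ m ∈ H.support, MvPolynomial.monomial (pr m) (H.coeff m) := by
  conv_lhs => rw [H.as_sum, map_sum]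
  exact Finset.sum_congr rfl fun m _ => ph_mon m _

theorem deg3 {d : ℕ} {H : MvPolynomial (Fin 3) k} (hH : H.IsHomogeneous d) {m : Fin 3 →₀ ℕ}
    (hm : m ∈ H.support) : m 0 + m 1 + m 2 = d := by
  have h := hH (MvPolynomial.mem_support_iff.1 hm)
  rw [← h, Finsupp.weight_apply, Finsupp.sum_fintype _ _ (by simp), Fin.sum_univ_three]
  simp

theorem pr_inj {d : ℕ} {H : MvPolynomial (Fin 3) k} (hH : H.IsHomogeneous d) {m m' : Fin 3 →₀ ℕ}
    (hm : m ∈ H.support) (hm' : m' ∈ H.support) (h : pr m = pr m') : m = m' := by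
  have h0 := DFunLike.congr_fun h 0
  have h1 := DFunLike.congr_fun h 1
  simp [pr] at h0 h1
  have h2 := deg3 hH hm
  have h3 := deg3 hH hm'
  ext i
  fin_cases i
  · exact h0
  · exact h1
  · show m 2 = m' 2
    omega

theorem ph_zero {d : ℕ} {H : MvPolynomial (Fin 3) k} (hH : H.IsHomogeneous d) (h : ph k H = 0) :
    H = 0 := by
  by_contra hne
  obtain ⟨m, hm⟩ := MvPolynomial.support_nonempty.2 hne
  have h1 := congrArg (MvPolynomial.coeff (pr m)) h
  rw [ph_sum, MvPolynomial.coeff_sum, Finset.sum_eq_single m] at h1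
  · rw [MvPolynomial.coeff_monomial, if_pos rfl, MvPolynomial.coeff_zero] at h1
    exact MvPolynomial.mem_support_iff.1 hm h1
  · intro m' hm' hne'
    rw [MvPolynomial.coeff_monomial, if_neg]
    intro h2
    exact hne' (pr_inj hH hm' hm h2)
  · intro h2; exact (h2 hm).elim

theorem ph_deg {d : ℕ} {H : MvPolynomial (Fin 3) k} (hH : H.IsHomogeneous d) :
    (ph k H).totalDegree ≤ d := by
  rw [ph_sum]
  refine MvPolynomial.totalDegree_finsetSum_le fun m hm => ?_
  refine (MvPolynomial.totalDegree_monomial_le _ _).trans ?_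
  have h := deg3 hH hm
  unfold pr
  rw [Finsupp.sum_fintype _ _ (by simp), Fin.sum_univ_two]
  simp
  omega

theorem ev_ph (a b : k) (H : MvPolynomial (Fin 3) k) :
    MvPolynomial.eval ![a, b] (ph k H) = MvPolynomial.eval ![a, b, 1] H := by
  rw [ph_sum, map_sum, MvPolynomial.eval_eq']
  refine Finset.sum_congr rfl fun m _ => ?_
  rw [MvPolynomial.eval_monomial, Finsupp.prod_fintype _ _ (by simp), Fin.prod_univ_two,
    Fin.prod_univ_three]
  simp [pr]

theorem top_mon (d : ℕ) (n : Fin 2 →₀ ℕ) (c : k) :
    top k d (MvPolynomial.monomial n c) =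
      if n 0 + n 1 = d then Polynomial.monomial (n 0) c else 0 := by
  show ∑ i ∈ Finset.range (d + 1), Polynomial.monomial i
    ((MvPolynomial.monomial n c).coeff (Finsupp.single 0 i + Finsupp.single 1 (d - i))) = _
  simp only [MvPolynomial.coeff_monomial]
  split_ifs with h
  · rw [Finset.sum_eq_single (n 0)]
    · rw [if_pos]
      ext i
      fin_cases i
      · simp
      · simp; omega
    · intro i _ hne
      rw [if_neg, map_zero]
      intro h2
      have := DFunLike.congr_fun h2 0
      simp at this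
      exact hne this.symm
    · intro h2
      rw [Finset.mem_range] at h2
      omega
  · refine Finset.sum_eq_zero fun i hi => ?_
    rw [if_neg, map_zero]
    intro h2
    have h0 := DFunLike.congr_fun h2 0
    have h1 := DFunLike.congr_fun h2 1
    simp at h0 h1
    rw [Finset.mem_range] at hi
    omega

theorem top_ph {d : ℕ} {H : MvPolynomial (Fin 3) k} (hH : H.IsHomogeneous d) :
    top k d (ph k H) = ∑ m ∈ H.support,
      if m 2 = 0 then Polynomial.monomial (m 0) (H.coeff m) else 0 := by
  rw [ph_sum, map_sum]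
  refine Finset.sum_congr rfl fun m hm => ?_
  rw [top_mon]
  have h := deg3 hH hm
  have h0 : pr m 0 = m 0 := by simp [pr]
  have h1 : pr m 1 = m 1 := by simp [pr]
  rw [h0, h1]
  by_cases h2 : m 2 = 0
  · rw [if_pos h2, if_pos (by omega)]
  · rw [if_neg h2, if_neg (by omega)]

theorem ev_top {d : ℕ} {H : MvPolynomial (Fin 3) k} (hH : H.IsHomogeneous d) (c : k) :
    (top k d (ph k H)).eval c = MvPolynomial.eval ![c, 1, 0] H := by
  rw [top_ph hH, Polynomial.eval_finsetSum, MvPolynomial.eval_eq']
  refine Finset.sum_congr rfl fun m _ => ?_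
  rw [Fin.prod_univ_three]
  by_cases h2 : m 2 = 0
  · rw [if_pos h2, Polynomial.eval_monomial]
    simp [h2]
  · rw [if_neg h2]
    simp [h2]

theorem coeff_top {d : ℕ} {H : MvPolynomial (Fin 3) k} (hH : H.IsHomogeneous d) :
    (top k d (ph k H)).coeff d = MvPolynomial.eval ![1, 0, 0] H := by
  rw [top_ph hH, Polynomial.finsetSum_coeff, MvPolynomial.eval_eq']
  refine Finset.sum_congr rfl fun m hm => ?_
  have h := deg3 hH hm
  rw [Fin.prod_univ_three]
  by_cases h2 : m 2 = 0
  · rw [if_pos h2, Polynomial.coeff_monomial]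
    by_cases h1 : m 1 = 0
    · rw [if_pos (by omega)]
      simp [h1, h2]
    · rw [if_neg (by omega)]
      simp [h1]
  · rw [if_neg h2]
    simp [h2]

theorem natDegree_top (d : ℕ) (f : MvPolynomial (Fin 2) k) : (top k d f).natDegree ≤ d := by
  show (∑ i ∈ Finset.range (d + 1), Polynomial.monomial i
    (f.coeff (Finsupp.single 0 i + Finsupp.single 1 (d - i)))).natDegree ≤ d
  refine Polynomial.natDegree_sum_le_of_forall_le _ _ fun i hi => ?_
  refine (Polynomial.natDegree_monomial_le _).trans ?_
  rw [Finset.mem_range] at hi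
  omega

theorem taskProjB : TaskProjB := by
  intro k _ _ d r H hd hH hli hne
  set f : Fin r → MvPolynomial (Fin 2) k := fun i => ph k (H i) with hf
  refine ⟨Submodule.span k (Set.range f), ?_, ?_, ?_, ?_, ?_⟩
  · intro g hg
    have hle : Submodule.span k (Set.range f) ≤ MvPolynomial.restrictTotalDegree (Fin 2) k d := by
      rw [Submodule.span_le]
      rintro _ ⟨i, rfl⟩
      exact (MvPolynomial.mem_restrictTotalDegree _ _ _).2 (ph_deg (hH i))
    exact (MvPolynomial.mem_restrictTotalDegree _ _ _).1 (hle hg)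
  · have hlf : LinearIndependent k f := by
      rw [Fintype.linearIndependent_iff] at hli ⊢
      intro c hc
      apply hli c
      apply ph_zero (d := d)
      · exact MvPolynomial.IsHomogeneous.sum _ _ _ fun i _ => by
          have := (MvPolynomial.isHomogeneous_C (Fin 3) (c i)).mul (hH i)
          rw [zero_add] at this
          rw [MvPolynomial.smul_eq_C_mul]; exact this
      · rw [map_sum, ← hc]
        exact Finset.sum_congr rfl fun i _ => by rw [map_smul]
    rw [finrank_span_eq_card hlf, Fintype.card_fin]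
  · intro a b
    constructor
    · intro h i
      rw [← ev_ph]
      exact h _ (Submodule.subset_span ⟨i, rfl⟩)
    · intro h g hg
      induction hg using Submodule.span_induction with
      | mem x hx => obtain ⟨i, rfl⟩ := hx; rw [hf]; exact (ev_ph a b (H i)).trans (h i)
      | zero => simp
      | add x y _ _ hx hy => rw [map_add, hx, hy, add_zero]
      | smul c x _ hx => rw [MvPolynomial.smul_eval, hx, mul_zero]
  · intro c
    constructor
    · intro h i
      rw [← ev_top (hH i)]
      exact h _ ⟨_, Submodule.subset_span ⟨i, rfl⟩, rfl⟩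
    · rintro h _ ⟨g, hg, rfl⟩
      induction hg using Submodule.span_induction with
      | mem x hx => obtain ⟨i, rfl⟩ := hx; rw [hf]; exact (ev_top (hH i) c).trans (h i)
      | zero => simp
      | add x y _ _ hx hy => rw [map_add, Polynomial.eval_add, hx, hy, add_zero]
      | smul e x _ hx => rw [map_smul, Polynomial.eval_smul, hx, smul_zero]
  · obtain ⟨i, hi⟩ := hne
    refine ⟨top k d (f i), ⟨_, Submodule.subset_span ⟨i, rfl⟩, rfl⟩, ?_⟩
    refine le_antisymm (natDegree_top d _) ?_
    apply Polynomial.le_natDegree_of_ne_zero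
    rw [hf]
    exact (coeff_top (hH i)).trans_ne hi

end Pool.Agent.Helper923.BG
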